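import Pool.Agent.Q266.RP.Stm

/-!
# Project RP: orders in quotients (job ORD)
-/

namespace Pool.Agent.Q53.RP

open Pool.Agent.Q266.RP

theorem ord : S_ORD := by
  refine ⟨?_, ?_⟩
  · intro G _ _ N _ x
    rw [orderOf_dvd_iff_pow_eq_one, pow_mul]
    have h1 : x ^ orderOf (QuotientGroup.mk x : G ⧸ N) ∈ N := by
      rw [← QuotientGroup.eq_one_iff, QuotientGroup.mk_pow]
      exact pow_orderOf_eq_one _
    have h2 : (⟨_, h1⟩ : N) ^ Nat.card N = 1 := pow_card_eq_one'
    have h3 := congrArg Subtype.val h2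
    rw [SubmonoidClass.coe_pow] at h3
    exact h3
  · intro G _ _ N _ x hx
    rw [orderOf_eq_orderOf_iff]
    intro n
    constructor
    · intro h
      have h1 : x ^ n ∈ N := by
        rw [← QuotientGroup.eq_one_iff, QuotientGroup.mk_pow]
        exact h
      have h2 : x ^ n ∈ Subgroup.zpowers x ⊓ N := ⟨Subgroup.npow_mem_zpowers x n, h1⟩
      rw [hx] at h2
      exact Subgroup.mem_bot.mp h2
    · intro h
      rw [← QuotientGroup.mk_pow, h]
      rfl

end Pool.Agent.Q53.RP
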