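import Pool.Agent.Q53.RP.Step
import Pool.Agent.Q178.RP.Proj

/-!
# Project RP: eigenspaces of the noncentral element of a pair (job EIG)
-/

namespace Pool.Agent.Q53.RP

open Module Pool.Agent.Q266.RP

theorem eig : S_EIG := by
  intro p hp G V _ _ _ _ _ ρ hirr e z hpair ω hω hω1
  obtain ⟨he, henc, hzc, hz, hconj⟩ := hpair
  have : Nontrivial V := hirr.1
  have hordω := step_order ρ hz hω hω1
  have hp0 : 0 < p := hp.out.pos
  have : NeZero p := ⟨hp0.ne'⟩
  have hprim : IsPrimitiveRoot ω p := by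
    have := IsPrimitiveRoot.orderOf ω
    rwa [hordω] at this
  have hω0 : ω ≠ 0 := hprim.ne_zero hp0.ne'
  have hTp : (ρ e) ^ p = 1 := by
    rw [← map_pow, he, map_one]
  obtain ⟨π, hsum, hT, heig, hcomm⟩ := Pool.Agent.Q178.RP.proj p V (ρ e) ω hprim hTp
  have hzcomm : ∀ (n : ℕ) (g : G), g * z ^ n = z ^ n * g := fun n g =>
    (Subgroup.mem_center_iff.mp (Subgroup.pow_mem _ hzc n) g)
  let W : Fin p → Submodule ℂ V := fun j => Module.End.eigenspace (ρ e) (ω ^ (j : ℕ))
  have hW : ∀ j v, v ∈ W j ↔ ρ e v = ω ^ (j : ℕ) • v := fun j v =>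
    Module.End.mem_eigenspace_iff
  have hint : DirectSum.IsInternal W := by
    rw [DirectSum.isInternal_submodule_iff_iSupIndep_and_iSup_eq_top]
    constructor
    · have h1 := Module.End.eigenspaces_iSupIndep (ρ e)
      refine h1.comp (f := fun j : Fin p => ω ^ (j : ℕ)) ?_
      intro i j hij
      exact Fin.ext (hprim.pow_inj i.2 j.2 hij)
    · rw [eq_top_iff]
      intro v _
      have h1 : v = ∑ j, π j v := by
        have := congrArg (fun f : End ℂ V => f v) hsum
        simp only [LinearMap.sum_apply, Module.End.one_apply] at this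
        exact this.symm
      rw [h1]
      exact Submodule.sum_mem _ fun j _ => Submodule.mem_iSup_of_mem j ((hW j _).mpr (hT j v))
  have hinv : ∀ j, ∀ c ∈ Subgroup.centralizer ({e} : Set G), ∀ w ∈ W j, ρ c w ∈ W j := by
    intro j c hc w hw
    rw [Subgroup.mem_centralizer_singleton_iff] at hc
    rw [hW] at hw ⊢
    rw [← Module.End.mul_apply, ← map_mul, ← hc, map_mul, Module.End.mul_apply, hw, map_smul]
  -- conjugation shifts the eigenvalues
  have hshift : ∀ (g : G) (n : ℕ), g * e * g⁻¹ = e * z ^ n → ∀ (μ : ℂ) (w : V),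
      ρ e w = μ • w → ρ e (ρ g w) = (μ * (ω ^ n)⁻¹) • ρ g w := by
    intro g n hgn μ w hw
    have h1 : g * e = e * g * z ^ n := by
      rw [mul_assoc e, hzcomm n g, ← mul_assoc]
      exact mul_inv_eq_iff_eq_mul.mp hgn
    have h2 : ρ (g * e) w = ρ (e * g * z ^ n) w := by rw [h1]
    rw [map_mul, map_mul, map_mul, Module.End.mul_apply, Module.End.mul_apply,
      Module.End.mul_apply, hw, step_pow ρ hω, map_smul, map_smul, map_smul] at h2
    have h3 : ω ^ n ≠ 0 := pow_ne_zero _ hω0
    calc ρ e (ρ g w) = ((ω ^ n)⁻¹ * ω ^ n) • ρ e (ρ g w) := by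
          rw [inv_mul_cancel₀ h3, one_smul]
      _ = (ω ^ n)⁻¹ • (ω ^ n • ρ e (ρ g w)) := by rw [smul_smul]
      _ = (ω ^ n)⁻¹ • (μ • ρ g w) := by rw [← h2]
      _ = _ := by rw [smul_smul, mul_comm]
  have hpowp : ∀ n : ℕ, (ω ^ n) ^ p = 1 := by
    intro n
    rw [← pow_mul, mul_comm, pow_mul, hprim.pow_eq_one, one_pow]
  -- a noncommuting element
  obtain ⟨g, hg⟩ : ∃ g : G, g * e ≠ e * g := by
    by_contra hcon
    push Not at hcon
    exact henc (Subgroup.mem_center_iff.mpr hcon)
  have hone : ∀ (g : G) (n : ℕ), g * e * g⁻¹ = e * z ^ n → ω ^ n = 1 → g * e = e * g := by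
    intro g n hgn hn
    have h1 : p ∣ n := by
      rw [← hordω]
      exact orderOf_dvd_of_pow_eq_one hn
    rw [← hz] at h1
    rw [orderOf_dvd_iff_pow_eq_one.mp h1, mul_one] at hgn
    exact mul_inv_eq_iff_eq_mul.mp hgn
  obtain ⟨n, hgn⟩ := hconj g
  have hωn : ω ^ n ≠ 1 := fun h1 => hg (hone g n hgn h1)
  have hprimn : IsPrimitiveRoot (ω ^ n) p := by
    have h1 : orderOf (ω ^ n) = p := orderOf_eq_prime (hpowp n) hωn
    have := IsPrimitiveRoot.orderOf (ω ^ n)
    rwa [h1] at this
  have hshiftpow : ∀ (i : ℕ) (μ : ℂ) (w : V),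
      ρ e w = μ • w → ρ e (ρ (g ^ i) w) = (μ * ((ω ^ n) ^ i)⁻¹) • ρ (g ^ i) w := by
    intro i
    induction i with
    | zero => intro μ w hw; simpa using hw
    | succ i ih =>
      intro μ w hw
      have h1 := hshift g n hgn _ _ (ih μ w hw)
      rw [pow_succ', map_mul, Module.End.mul_apply, h1]
      congr 1
      rw [pow_succ, mul_inv, mul_assoc]
  have hdimle : ∀ j k, finrank ℂ (W j) ≤ finrank ℂ (W k) := by
    intro j k
    have h1 : (ω ^ (j : ℕ) * (ω ^ (k : ℕ))⁻¹) ^ p = 1 := by
      rw [mul_pow, inv_pow, hpowp, hpowp, inv_one, mul_one]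
    obtain ⟨i, -, hi⟩ := hprimn.eq_pow_of_pow_eq_one h1
    have hmaps : ∀ w ∈ W j, ρ (g ^ i) w ∈ W k := by
      intro w hw
      rw [hW] at hw ⊢
      rw [hshiftpow i _ w hw, hi]
      congr 1
      have hj : ω ^ (j : ℕ) ≠ 0 := pow_ne_zero _ hω0
      have hk : ω ^ (k : ℕ) ≠ 0 := pow_ne_zero _ hω0
      field_simp
    refine LinearMap.finrank_le_finrank_of_injective (f := (ρ (g ^ i)).restrict hmaps) ?_
    intro a b hab
    have h2 : ρ (g ^ i) a = ρ (g ^ i) b := congrArg Subtype.val hab
    have h3 := congrArg (ρ (g ^ i)⁻¹) h2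
    rw [← Module.End.mul_apply, ← Module.End.mul_apply, ← map_mul, inv_mul_cancel, map_one] at h3
    exact Subtype.ext h3
  have hdim : ∀ j, finrank ℂ V = p * finrank ℂ (W j) := by
    intro j
    have h1 := (LinearEquiv.ofBijective (DirectSum.coeLinearMap W) hint).finrank_eq
    rw [← h1, Module.finrank_directSum, Finset.sum_congr rfl
      (fun k _ => le_antisymm (hdimle k j) (hdimle j k)), Finset.sum_const, Finset.card_univ,
      Fintype.card_fin, smul_eq_mul]
  have hne : ∀ j, W j ≠ ⊥ := by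
    intro j hj
    have h1 := hdim j
    rw [hj, finrank_bot, mul_zero] at h1
    exact (Module.finrank_pos (R := ℂ) (M := V)).ne' h1
  refine ⟨W, hint, hinv, hdim, hne, ?_, ?_⟩
  · intro j U hU hUinv
    let U' : Submodule ℂ V := ⨆ g : G, Submodule.map (ρ g) U
    have hU' : ∀ g : G, ∀ w ∈ U', ρ g w ∈ U' := by
      intro g
      have h1 : U' ≤ Submodule.comap (ρ g) U' := by
        refine iSup_le fun k => ?_
        rintro _ ⟨u, hu, rfl⟩
        rw [Submodule.mem_comap, ← Module.End.mul_apply, ← map_mul]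
        exact Submodule.mem_iSup_of_mem (g * k) ⟨u, hu, rfl⟩
      exact fun w hw => h1 hw
    rcases hirr.2 U' hU' with h1 | h1
    · left
      rw [eq_bot_iff]
      intro u hu
      rw [← h1]
      refine Submodule.mem_iSup_of_mem 1 ⟨u, hu, ?_⟩
      rw [map_one, Module.End.one_apply]
    · right
      refine le_antisymm hU ?_
      have h2 : U' ≤ Submodule.comap (π j) U := by
        refine iSup_le fun k => ?_
        rintro _ ⟨u, hu, rfl⟩
        rw [Submodule.mem_comap]
        obtain ⟨m, hm⟩ := hconj k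
        have hu1 := (hW j u).mp (hU hu)
        by_cases hωm : ω ^ m = 1
        · have hc : k ∈ Subgroup.centralizer ({e} : Set G) := by
            rw [Subgroup.mem_centralizer_singleton_iff]
            exact hone k m hm hωm
          have h3 := hUinv k hc u hu
          have h4 := heig j j (ρ k u) ((hW j _).mp (hU h3))
          rw [if_pos rfl] at h4
          rw [h4]
          exact h3
        · have h3 := hshift k m hm _ u hu1
          have h4 : (ω ^ (j : ℕ) * (ω ^ m)⁻¹) ^ p = 1 := by
            rw [mul_pow, inv_pow, hpowp, hpowp, inv_one, mul_one]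
          obtain ⟨i, hi, hii⟩ := hprim.eq_pow_of_pow_eq_one h4
          rw [← hii] at h3
          have h5 := heig j ⟨i, hi⟩ (ρ k u) h3
          rw [if_neg] at h5
          · rw [h5]
            exact Submodule.zero_mem _
          · intro hj
            apply hωm
            have hj' : (j : ℕ) = i := congrArg Fin.val hj
            rw [← hj'] at hii
            have hj0 : ω ^ (j : ℕ) ≠ 0 := pow_ne_zero _ hω0
            have h6 : (ω ^ m)⁻¹ = 1 := by
              have h7 : ω ^ (j : ℕ) * (ω ^ m)⁻¹ = ω ^ (j : ℕ) * 1 := by rw [mul_one]; exact hii.symm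
              exact mul_left_cancel₀ hj0 h7
            exact inv_eq_one.mp h6
      intro w hw
      have h3 : w ∈ U' := by rw [h1]; trivial
      have h4 := h2 h3
      rw [Submodule.mem_comap] at h4
      have h5 := heig j j w ((hW j w).mp hw)
      rw [if_pos rfl] at h5
      rwa [h5] at h4
  · intro j
    refine ⟨p - j, fun w hw => ?_⟩
    rw [hW] at hw
    rw [map_mul, Module.End.mul_apply, step_pow ρ hω, map_smul, hw, smul_smul, ← pow_add,
      Nat.sub_add_cancel j.2.le, hprim.pow_eq_one, one_smul]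

end Pool.Agent.Q53.RP
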