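import Pool.Agent.Q266.RP.Stm

/-!
# Project RP: the descent step (job STEP)
-/

namespace Pool.Agent.Q53.RP

open Module Pool.Agent.Q266.RP

theorem step_pow {G V : Type} [Group G] [AddCommGroup V] [Module ℂ V]
    (ρ : Representation ℂ G V) {z : G} {ω : ℂ} (hω : ∀ v, ρ z v = ω • v) (n : ℕ) (v : V) :
    ρ (z ^ n) v = ω ^ n • v := by
  induction n generalizing v with
  | zero => simp
  | succ n ih =>
    rw [pow_succ, map_mul, Module.End.mul_apply, hω, map_smul, ih, smul_smul, pow_succ, mul_comm]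

/-- The scalar of an element of order `p` is a root of unity of order `p`. -/
theorem step_order {p : ℕ} [hp : Fact p.Prime] {G V : Type} [Group G] [AddCommGroup V] [Module ℂ V]
    [Nontrivial V] (ρ : Representation ℂ G V) {z : G} (hz : orderOf z = p) {ω : ℂ}
    (hω : ∀ v, ρ z v = ω • v) (hω1 : ω ≠ 1) : orderOf ω = p := by
  refine orderOf_eq_prime ?_ hω1
  obtain ⟨v, hv⟩ := exists_ne (0 : V)
  have h1 := step_pow ρ hω p v
  rw [← hz, pow_orderOf_eq_one, map_one, Module.End.one_apply, hz] at h1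
  have h2 : (ω ^ p - 1) • v = 0 := by
    rw [sub_smul, one_smul, ← h1, sub_self]
  rcases smul_eq_zero.mp h2 with h3 | h3
  · exact sub_eq_zero.mp h3
  · exact absurd h3 hv

theorem step (h1 : S_DESC) (h2 : S_EIG) (h3 : S_TRZ) (h4 : S_CARDC) : S_STEP := by
  intro p hp G V _ _ _ _ _ ρ hirr e z hpair ω hω hω1 x hx
  obtain ⟨W, hint, hinv, hdim, hne, hirrW, hn⟩ := h2 p G V ρ hirr e z hpair ω hω hω1
  have hcard := h4 p G e z hpair
  obtain ⟨he, henc, hzc, hz, hconj⟩ := hpair
  haveI : Nontrivial V := hirr.1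
  have hordω := step_order ρ hz hω hω1
  have hzcomm : ∀ (n : ℕ) (g : G), g * z ^ n = z ^ n * g := fun n g =>
    (Subgroup.mem_center_iff.mp (Subgroup.pow_mem _ hzc n) g)
  have hxe : x * e = e * x := by
    by_contra hne'
    obtain ⟨n, hcn⟩ := hconj x
    have hzn : z ^ n ≠ 1 := by
      intro h
      rw [h, mul_one] at hcn
      exact hne' (mul_inv_eq_iff_eq_mul.mp hcn)
    have hωn : ω ^ n ≠ 1 := by
      intro h
      have : p ∣ n := by
        rw [← hordω]
        exact orderOf_dvd_of_pow_eq_one h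
      rw [← hz] at this
      exact hzn (orderOf_dvd_iff_pow_eq_one.mp this)
    apply hx
    refine h3 G V ρ x e⁻¹ (z ^ n) (ω ^ n) (step_pow ρ hω n) hωn ?_
    have h5 : x * e = e * z ^ n * x := mul_inv_eq_iff_eq_mul.mp hcn
    rw [inv_inv, mul_assoc, h5, hzcomm n x]
    group
  set C : Subgroup G := Subgroup.centralizer ({e} : Set G) with hC
  have hxC : x ∈ C := by
    rw [hC, Subgroup.mem_centralizer_singleton_iff]
    exact hxe
  have hmaps : ∀ j, Set.MapsTo (ρ x) (W j) (W j) := fun j w hw => hinv j x hxC w hw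
  have htr := LinearMap.trace_eq_sum_trace_restrict hint (f := ρ x) hmaps
  rw [htr] at hx
  obtain ⟨j, -, hj⟩ := Finset.exists_ne_zero_of_sum_ne_zero hx
  obtain ⟨n, hnj⟩ := hn j
  have huC : e * z ^ n ∈ C := by
    rw [hC, Subgroup.mem_centralizer_singleton_iff, mul_assoc, ← hzcomm n e]
  have hucomm : ∀ c ∈ C, c * (e * z ^ n) = (e * z ^ n) * c := by
    intro c hc
    rw [hC, Subgroup.mem_centralizer_singleton_iff] at hc
    rw [← mul_assoc, hc, mul_assoc, hzcomm n c, mul_assoc]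
  have hun : e * z ^ n ≠ 1 := by
    intro h
    apply henc
    have : e = (z ^ n)⁻¹ := eq_inv_of_mul_eq_one_left h
    rw [this]
    exact Subgroup.inv_mem _ (Subgroup.pow_mem _ hzc n)
  have hup : (e * z ^ n) ^ p = 1 := by
    have hc : Commute e (z ^ n) := hzcomm n e
    rw [hc.mul_pow, he, one_mul, ← pow_mul, mul_comm n p, pow_mul, ← hz, pow_orderOf_eq_one,
      one_pow]
  have hou : orderOf (⟨e * z ^ n, huC⟩ : C) = p := by
    refine orderOf_eq_prime ?_ ?_
    · apply Subtype.ext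
      rw [SubmonoidClass.coe_pow]
      exact hup
    · intro h
      exact hun (congrArg Subtype.val h)
  have hN : (Subgroup.zpowers (⟨e * z ^ n, huC⟩ : C)).Normal := by
    refine ⟨fun m hm g => ?_⟩
    have hc : Commute g (⟨e * z ^ n, huC⟩ : C) := by
      apply Subtype.ext
      exact hucomm g g.2
    obtain ⟨k, rfl⟩ := Subgroup.mem_zpowers_iff.mp hm
    have := hc.zpow_right k
    rw [this.eq, mul_inv_cancel_right]
    exact hm
  obtain ⟨σ1, hσ1, hσ1c⟩ := h1.1 G V ρ C (W j) (hinv j) (hne j) (hirrW j)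
  have htriv : ∀ m ∈ Subgroup.zpowers (⟨e * z ^ n, huC⟩ : C), σ1 m = 1 := by
    have hle : Subgroup.zpowers (⟨e * z ^ n, huC⟩ : C) ≤ MonoidHom.ker σ1 := by
      rw [Subgroup.zpowers_le, MonoidHom.mem_ker, hσ1c]
      ext w
      exact hnj w w.2
    intro m hm
    exact hle hm
  obtain ⟨σ, hσ, hσc⟩ := h1.2 C (W j) σ1 (Subgroup.zpowers (⟨e * z ^ n, huC⟩ : C)) hσ1 htriv
  refine ⟨C, hxC, n, huC, hN, W j, σ, hσ, hdim j, ?_, ?_⟩
  · rw [hσc, hσ1c]
    exact hj
  · have e1 := Subgroup.card_eq_card_quotient_mul_card_subgroup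
      (Subgroup.zpowers (⟨e * z ^ n, huC⟩ : C))
    rw [Nat.card_zpowers, hou] at e1
    rw [hcard, e1]
    ring

end Pool.Agent.Q53.RP
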